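import Mathlib

open Finset Filter Topology

namespace Pool.Agent.Results.MP_94c5d9_co.No

/-- Satisfying assignments of the DNF with terms `F i`; a literal is a variable with a sign. -/
def dnfSat {n t : ℕ} (F : Fin t → Finset (Fin n × Bool)) : Finset (Fin n → Bool) :=
  univ.filter fun x => ∃ i, ∀ l ∈ F i, x l.1 = l.2

/-- Satisfying assignments of the CNF with clauses `F i`. -/
def cnfSat {n t : ℕ} (F : Fin t → Finset (Fin n × Bool)) : Finset (Fin n → Bool) :=
  univ.filter fun x => ∀ i, ∃ l ∈ F i, x l.1 = l.2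

/-- Least number of terms or clauses of a formula with exactly `k` satisfying assignments. -/
noncomputable def beta (k : ℕ) : ℕ :=
  sInf {t | ∃ (n : ℕ) (F : Fin t → Finset (Fin n × Bool)),
    (dnfSat F).card = k ∨ (cnfSat F).card = k}

/-- Number of maximal runs of ones in the binary form of `k`, counted by their top bits. -/
noncomputable def bl (k : ℕ) : ℕ :=
  {i | k.testBit i = true ∧ k.testBit (i + 1) = false}.ncard

def cube {n : ℕ} (T : Finset (Fin n × Bool)) : Finset (Fin n → Bool) :=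
  univ.filter fun x => ∀ l ∈ T, x l.1 = l.2

def vars {n : ℕ} (T : Finset (Fin n × Bool)) : Finset (Fin n) := T.image Prod.fst

lemma cube_card {n : ℕ} (T : Finset (Fin n × Bool)) (h : (cube T).Nonempty) :
    (cube T).card = 2 ^ (n - (vars T).card) := by
  obtain ⟨y, hy⟩ := h
  have hy' := (mem_filter.1 hy).2
  have he : cube T = Fintype.piFinset fun v => if v ∈ (vars T)ᶜ then univ else {y v} := by
    ext x
    simp only [cube, vars, mem_filter, mem_univ, true_and, Fintype.mem_piFinset, mem_compl,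
      mem_image]
    constructor
    · intro h v
      split_ifs with hv
      · obtain ⟨l, hl, rfl⟩ := hv
        rw [mem_singleton, h l hl, hy' l hl]
      · exact mem_univ _
    · intro h l hl
      have := h l.1
      rw [if_neg (not_not.2 ⟨l, hl, rfl⟩), mem_singleton] at this
      rw [this, hy' l hl]
  rw [he, Fintype.card_piFinset, Finset.prod_congr rfl (g := fun v => if v ∈ (vars T)ᶜ then 2 else 1)]
  · rw [Finset.prod_ite_mem, univ_inter, prod_const, card_compl, Fintype.card_fin]
  · intro v _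
    split_ifs <;> simp

lemma approx {n t' t c L U : ℕ} (ht : t' ≤ t) (F : Fin t' → Finset (Fin n × Bool))
    (h0 : ∀ i, (cube (F i)).Nonempty → c ≤ (vars (F i)).card)
    (h1 : ∀ i, (vars (F i)).card - c ≤ L ∨ U ≤ (vars (F i)).card - c)
    (h2 : ∀ i j, (vars (F j) \ vars (F i)).card ≤ L ∨ U ≤ (vars (F j) \ vars (F i)).card) :
    ∃ A : ℤ, |((dnfSat F).card : ℤ) - A * 2 ^ (n - c - (t + 1) * L)| ≤ 2 ^ (t + (n - c - U)) := by
  have he : dnfSat F = univ.biUnion fun i => cube (F i) := by
    ext x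
    simp [dnfSat, cube]
  have key : ∀ (T : Finset (Fin t')) (hT : T.Nonempty), ∃ A : ℤ,
      |((T.inf' hT fun i => cube (F i)).card : ℤ) - A * 2 ^ (n - c - (t + 1) * L)| ≤
        2 ^ (n - c - U) := by
    intro T hT
    have e1 : (T.inf' hT fun i => cube (F i)) = cube (T.biUnion F) := by
      ext x
      simp only [mem_inf', cube, mem_filter, mem_univ, true_and, mem_biUnion]
      constructor
      · rintro h l ⟨i, hi, hl⟩
        exact h i hi l hl
      · intro h i hi l hl
        exact h l ⟨i, hi, hl⟩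
    by_cases hne : (cube (T.biUnion F)).Nonempty
    · rw [e1, cube_card _ hne]
      obtain ⟨i, hi⟩ := hT
      have hi0 : c ≤ (vars (F i)).card := by
        refine h0 i (hne.mono fun x hx => ?_)
        simp only [cube, mem_filter, mem_univ, true_and, mem_biUnion] at hx ⊢
        exact fun l hl => hx l ⟨i, hi, hl⟩
      have hsub : ∀ j ∈ T, vars (F j) ⊆ vars (T.biUnion F) := fun j hj =>
        image_subset_image (subset_biUnion_of_mem F hj)
      by_cases hbig : c + U ≤ (vars (T.biUnion F)).card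
      · refine ⟨0, ?_⟩
        rw [zero_mul, sub_zero, Nat.abs_cast]
        exact_mod_cast Nat.pow_le_pow_right (by norm_num) (by omega)
      · have a1 : (vars (F i)).card ≤ c + L := by
          have := card_le_card (hsub i hi)
          have := h1 i
          omega
        have a2 : ∀ j ∈ T, (vars (F j) \ vars (F i)).card ≤ L := by
          intro j hj
          have b1 := card_le_card (union_subset (hsub j hj) (hsub i hi))
          have b2 := card_sdiff_add_card (vars (F j)) (vars (F i))
          have := h2 i j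
          omega
        have a3 : vars (T.biUnion F) ⊆ vars (F i) ∪ T.biUnion fun j => vars (F j) \ vars (F i) := by
          intro v hv
          by_cases hvi : v ∈ vars (F i)
          · exact mem_union_left _ hvi
          · obtain ⟨l, hl, rfl⟩ := mem_image.1 hv
            obtain ⟨j, hj, hl'⟩ := mem_biUnion.1 hl
            exact mem_union_right _ (mem_biUnion.2 ⟨j, hj, mem_sdiff.2 ⟨mem_image_of_mem _ hl', hvi⟩⟩)
        have a4 := (card_le_card a3).trans (card_union_le _ _)
        have a5 := card_biUnion_le_card_mul T _ L a2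
        have a6 : T.card * L ≤ t * L :=
          Nat.mul_le_mul_right _ ((card_le_univ T).trans (by simpa using ht))
        have a7 : n - c - (t + 1) * L ≤ n - (vars (T.biUnion F)).card := by
          rw [add_mul, one_mul]
          omega
        obtain ⟨d, hd⟩ := Nat.exists_eq_add_of_le a7
        refine ⟨2 ^ d, ?_⟩
        rw [hd]
        push_cast
        rw [pow_add, mul_comm, sub_self, abs_zero]
        positivity
    · refine ⟨0, ?_⟩
      rw [e1, not_nonempty_iff_eq_empty.1 hne]
      simp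
  choose A hA using key
  rw [he, inclusion_exclusion_card_biUnion]
  refine ⟨∑ T : (univ : Finset (Fin t')).powerset.filter (·.Nonempty),
    (-1 : ℤ) ^ (T.1.card + 1) * A T.1 (mem_filter.1 T.2).2, ?_⟩
  rw [Finset.sum_mul, ← Finset.sum_sub_distrib]
  refine (Finset.abs_sum_le_sum_abs _ _).trans ?_
  refine (Finset.sum_le_card_nsmul _ _ (2 ^ (n - c - U)) fun T _ => ?_).trans ?_
  · rw [mul_assoc, ← mul_sub, abs_mul]
    simpa using hA T.1 (mem_filter.1 T.2).2
  · rw [pow_add, nsmul_eq_mul]
    refine mul_le_mul_of_nonneg_right ?_ (by positivity)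
    have : (univ : Finset ((univ : Finset (Fin t')).powerset.filter (·.Nonempty))).card ≤ 2 ^ t := by
      rw [card_univ, Fintype.card_coe]
      refine (card_filter_le _ _).trans ?_
      rw [card_powerset, card_univ, Fintype.card_fin]
      exact Nat.pow_le_pow_right (by norm_num) ht
    exact_mod_cast this

lemma window {n t' t c M : ℕ} (hM : 2 ≤ M) (ht : t' ≤ t) (F : Fin t' → Finset (Fin n × Bool))
    (h0 : ∀ i, (cube (F i)).Nonempty → c ≤ (vars (F i)).card) :
    ∃ j < t * t + t + 1, ∃ A : ℤ, |((dnfSat F).card : ℤ) - A * 2 ^ (n - c - (t + 1) * M ^ j)| ≤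
      2 ^ (t + (n - c - M ^ (j + 1))) := by
  let B : Finset ℕ := (univ.image fun p : Fin t' × Fin t' =>
    Nat.log M (vars (F p.2) \ vars (F p.1)).card) ∪
      univ.image fun i => Nat.log M ((vars (F i)).card - c)
  have hB : B.card < (range (t * t + t + 1)).card := by
    have h1 := card_union_le (univ.image fun p : Fin t' × Fin t' =>
      Nat.log M (vars (F p.2) \ vars (F p.1)).card)
      (univ.image fun i => Nat.log M ((vars (F i)).card - c))
    have h2 := card_image_le (s := univ) (f := fun p : Fin t' × Fin t' =>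
      Nat.log M (vars (F p.2) \ vars (F p.1)).card)
    have h3 := card_image_le (s := univ) (f := fun i => Nat.log M ((vars (F i)).card - c))
    simp only [card_univ, Fintype.card_prod, Fintype.card_fin] at h2 h3
    have h4 : t' * t' ≤ t * t := Nat.mul_le_mul ht ht
    rw [card_range]
    exact lt_of_le_of_lt h1 (by omega)
  obtain ⟨j, hj, hjB⟩ := exists_mem_notMem_of_card_lt_card hB
  have hx : ∀ x, Nat.log M x ≠ j → x ≤ M ^ j ∨ M ^ (j + 1) ≤ x := by
    intro x hx
    by_contra h
    push Not at h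
    exact hx (Nat.log_eq_of_pow_le_of_lt_pow h.1.le h.2)
  refine ⟨j, mem_range.1 hj, approx ht F h0 (fun i => hx _ fun h => hjB ?_)
    (fun i i' => hx _ fun h => hjB ?_)⟩
  · exact mem_union_right _ (mem_image.2 ⟨i, mem_univ _, h⟩)
  · exact mem_union_left _ (mem_image.2 ⟨(i, i'), mem_univ _, h⟩)

def gap (t j : ℕ) : ℕ := (t + 1) * (4 * t + 4) ^ j + t + 2

def top (t : ℕ) : ℕ := (4 * t + 4) ^ (t * t + t + 1) + t

def ex (t : ℕ) : Finset ℕ :=
  insert (top t) ((range (t * t + t + 1)).image fun j => top t - gap t j)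

def kk (t : ℕ) : ℕ := ∑ e ∈ ex t, 2 ^ e

lemma gap_lt (t j : ℕ) : gap t j + 2 * t < (4 * t + 4) ^ (j + 1) := by
  have : 1 ≤ (4 * t + 4) ^ j := Nat.one_le_pow _ _ (by omega)
  unfold gap
  rw [pow_succ]
  nlinarith

lemma kk_bounds (t : ℕ) : 2 ^ top t ≤ kk t ∧ kk t < 2 ^ (top t + 1) := by
  refine ⟨single_le_sum (f := fun e => 2 ^ e) (fun _ _ => Nat.zero_le _) (mem_insert_self _ _),
    Nat.geomSum_lt le_rfl fun e he => ?_⟩
  rcases mem_insert.1 he with rfl | he
  · omega
  · obtain ⟨j, -, rfl⟩ := mem_image.1 he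
    omega

lemma far {t h j : ℕ} (hj : j < t * t + t + 1) (h1 : top t ≤ h + t) (h2 : h ≤ top t + t) (A : ℤ) :
    ¬ |(kk t : ℤ) - A * 2 ^ (h - (t + 1) * (4 * t + 4) ^ j)| ≤
      2 ^ (t + (h - (4 * t + 4) ^ (j + 1))) := by
  have hM : 1 < 4 * t + 4 := by omega
  have g1 := gap_lt t j
  have g2 : (4 * t + 4) ^ (j + 1) ≤ (4 * t + 4) ^ (t * t + t + 1) :=
    Nat.pow_le_pow_right (by omega) hj
  have g3 : 1 ≤ (4 * t + 4) ^ j := Nat.one_le_pow _ _ (by omega)
  have g4 : t + 1 ≤ (t + 1) * (4 * t + 4) ^ j := Nat.le_mul_of_pos_right _ g3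
  set a := h - (t + 1) * (4 * t + 4) ^ j with ha
  set s := t + (h - (4 * t + 4) ^ (j + 1)) with hs
  set m := top t - gap t j with hm
  have hgj : gap t j = (t + 1) * (4 * t + 4) ^ j + t + 2 := rfl
  have htop : top t = (4 * t + 4) ^ (t * t + t + 1) + t := rfl
  have c1 : m + 2 ≤ a := by omega
  have c2 : s < m := by omega
  have hsplit := Finset.sum_filter_add_sum_filter_not (ex t) (fun e => a ≤ e) (fun e => 2 ^ e)
  obtain ⟨B, hB⟩ : 2 ^ a ∣ ∑ e ∈ (ex t).filter (fun e => a ≤ e), 2 ^ e :=
    Finset.dvd_sum fun e he => pow_dvd_pow 2 (mem_filter.1 he).2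
  set r := ∑ e ∈ (ex t).filter (fun e => ¬ a ≤ e), 2 ^ e with hr
  have r1 : 2 ^ m ≤ r := single_le_sum (f := fun e => 2 ^ e) (fun _ _ => Nat.zero_le _)
    (mem_filter.2 ⟨mem_insert_of_mem (mem_image.2 ⟨j, mem_range.2 hj, rfl⟩), by omega⟩)
  have r2 : r < 2 ^ (m + 1) := by
    refine Nat.geomSum_lt le_rfl fun e he => ?_
    obtain ⟨he, hea⟩ := mem_filter.1 he
    rcases mem_insert.1 he with rfl | he
    · omega
    · obtain ⟨i, -, rfl⟩ := mem_image.1 he
      have hgi : gap t i = (t + 1) * (4 * t + 4) ^ i + t + 2 := rfl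
      rcases lt_or_ge i j with hij | hij
      · have d1 := gap_lt t i
        have d2 : (4 * t + 4) ^ (i + 1) ≤ (4 * t + 4) ^ j := Nat.pow_le_pow_right (by omega) hij
        have d3 : (4 * t + 4) ^ j ≤ (t + 1) * (4 * t + 4) ^ j := Nat.le_mul_of_pos_left _ (by omega)
        omega
      · have d2 : (t + 1) * (4 * t + 4) ^ j ≤ (t + 1) * (4 * t + 4) ^ i :=
          Nat.mul_le_mul_left _ (Nat.pow_le_pow_right (by omega) hij)
        omega
  have hk : (kk t : ℤ) = 2 ^ a * B + r := by
    unfold kk
    rw [← hsplit, hB]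
    push_cast
    rfl
  have p1 : (2 : ℤ) ^ s < 2 ^ m := pow_lt_pow_right₀ (by norm_num) c2
  have p2 : (2 : ℤ) ^ (m + 2) ≤ 2 ^ a := pow_le_pow_right₀ (by norm_num) c1
  have r1' : (2 : ℤ) ^ m ≤ r := by exact_mod_cast r1
  have r2' : (r : ℤ) < 2 ^ (m + 1) := by exact_mod_cast r2
  have p3 : (0 : ℤ) < 2 ^ m := by positivity
  rw [pow_succ] at r2'
  rw [pow_add] at p2
  rw [hk, abs_le]
  rintro ⟨q1, q2⟩
  rcases le_or_gt A B with hAB | hAB
  · nlinarith
  · have : (B : ℤ) + 1 ≤ A := hAB
    nlinarith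

lemma no_formula {t t' n : ℕ} (ht : t' ≤ t) (F : Fin t' → Finset (Fin n × Bool)) :
    (dnfSat F).card ≠ kk t ∧ (cnfSat F).card ≠ kk t := by
  obtain ⟨k1, k2⟩ := kk_bounds t
  have kpos : 0 < kk t := lt_of_lt_of_le (by positivity) k1
  constructor
  · intro hk
    have he : dnfSat F = (univ.filter fun i => (cube (F i)).Nonempty).biUnion
        fun i => cube (F i) := by
      ext x
      simp only [dnfSat, mem_filter, mem_univ, true_and, mem_biUnion]
      constructor
      · rintro ⟨i, hi⟩
        have : x ∈ cube (F i) := mem_filter.2 ⟨mem_univ _, hi⟩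
        exact ⟨i, ⟨x, this⟩, this⟩
      · rintro ⟨i, -, hi⟩
        exact ⟨i, (mem_filter.1 hi).2⟩
    have hne : (univ.filter fun i => (cube (F i)).Nonempty).Nonempty := by
      obtain ⟨x, hx⟩ := card_pos.1 (hk ▸ kpos)
      rw [he] at hx
      obtain ⟨i, hi, -⟩ := mem_biUnion.1 hx
      exact ⟨i, hi⟩
    obtain ⟨i, hi, hmin⟩ := exists_min_image _ (fun i => (vars (F i)).card) hne
    have h0 : ∀ j, (cube (F j)).Nonempty → (vars (F i)).card ≤ (vars (F j)).card :=
      fun j hj => hmin j (mem_filter.2 ⟨mem_univ _, hj⟩)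
    obtain ⟨j, hj, A, hA⟩ := window (M := 4 * t + 4) (by omega) ht F h0
    rw [hk] at hA
    refine far hj ?_ ?_ A hA
    · have b1 : (dnfSat F).card ≤ t * 2 ^ (n - (vars (F i)).card) := by
        rw [he]
        refine (card_biUnion_le_card_mul _ _ (2 ^ (n - (vars (F i)).card)) fun j hj => ?_).trans ?_
        · have hj' := (mem_filter.1 hj).2
          rw [cube_card _ hj']
          have := h0 j hj'
          exact Nat.pow_le_pow_right (by norm_num) (by omega)
        · exact Nat.mul_le_mul_right _ ((card_le_univ _).trans (by simpa using ht))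
      have b2 : t * 2 ^ (n - (vars (F i)).card) ≤ 2 ^ (n - (vars (F i)).card + t) := by
        rw [pow_add, mul_comm]
        exact Nat.mul_le_mul_left _ Nat.lt_two_pow_self.le
      exact (Nat.pow_le_pow_iff_right (by norm_num : 1 < 2)).1 (by omega)
    · have b1 : 2 ^ (n - (vars (F i)).card) ≤ (dnfSat F).card := by
        rw [← cube_card _ (mem_filter.1 hi).2, he]
        exact card_le_card (subset_biUnion_of_mem (fun i => cube (F i)) hi)
      have := (Nat.pow_lt_pow_iff_right (by norm_num : 1 < 2)).1 (b1.trans_lt (hk ▸ k2))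
      omega
  · intro hk
    let G : Fin t' → Finset (Fin n × Bool) := fun i => (F i).image fun l => (l.1, !l.2)
    have he : dnfSat G = (cnfSat F)ᶜ := by
      ext x
      simp only [dnfSat, cnfSat, G, mem_filter, mem_univ, true_and, mem_compl, not_forall,
        not_exists, not_and, Finset.forall_mem_image]
      refine exists_congr fun i => forall_congr' fun l => forall_congr' fun _ => ?_
      cases x l.1 <;> cases l.2 <;> simp
    have hc : (cnfSat F).card ≤ 2 ^ n := (card_le_univ _).trans (by simp)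
    have hG : ((dnfSat G).card : ℤ) = 2 ^ n - kk t := by
      rw [he, card_compl, ← hk, Nat.cast_sub (card_le_univ _)]
      simp
    obtain ⟨j, hj, A, hA⟩ := window (M := 4 * t + 4) (c := 0) (by omega) ht G
      (fun _ _ => Nat.zero_le _)
    rw [Nat.sub_zero, hG] at hA
    obtain ⟨d, hd⟩ := Nat.exists_eq_add_of_le (Nat.sub_le n ((t + 1) * (4 * t + 4) ^ j))
    refine far (h := n) hj ?_ ?_ (2 ^ d - A) ?_
    · have := (Nat.pow_le_pow_iff_right (by norm_num : 1 < 2)).1 (k1.trans (hk ▸ hc))
      omega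
    · obtain ⟨x, hx⟩ := card_pos.1 (hk ▸ kpos)
      choose l hl using (mem_filter.1 hx).2
      have b0 : x ∈ cube (univ.image l) := by
        simp only [cube, mem_filter, mem_univ, true_and, Finset.forall_mem_image]
        exact fun i _ => (hl i).2
      have b1 : cube (univ.image l) ⊆ cnfSat F := by
        intro y hy
        exact mem_filter.2 ⟨mem_univ _, fun i =>
          ⟨l i, (hl i).1, (mem_filter.1 hy).2 _ (mem_image_of_mem _ (mem_univ _))⟩⟩
      have b2 := card_le_card b1
      rw [cube_card _ ⟨x, b0⟩, hk] at b2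
      have b3 := (Nat.pow_lt_pow_iff_right (by norm_num : 1 < 2)).1 (b2.trans_lt k2)
      have b4 : (vars (univ.image l)).card ≤ t :=
        card_image_le.trans (card_image_le.trans (by simpa using ht))
      omega
    · rw [abs_sub_comm] at hA
      have e : (2 : ℤ) ^ n = 2 ^ (n - (t + 1) * (4 * t + 4) ^ j) * 2 ^ d := by
        rw [← pow_add, ← hd]
      convert hA using 2
      rw [e]
      ring

lemma exists_formula (k : ℕ) : ∃ (n : ℕ) (F : Fin k → Finset (Fin n × Bool)),
    (dnfSat F).card = k ∨ (cnfSat F).card = k := by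
  have hc : Fintype.card (Fin k) ≤ Fintype.card (Fin k → Bool) := by
    simpa using Nat.lt_two_pow_self.le
  obtain ⟨g⟩ := Function.Embedding.nonempty_of_card_le hc
  refine ⟨k, fun i => univ.image fun v => (v, g i v), Or.inl ?_⟩
  have : dnfSat (fun i => univ.image fun v => (v, g i v)) = univ.map g := by
    ext x
    simp only [dnfSat, mem_filter, mem_univ, true_and, Finset.forall_mem_image, Finset.mem_map]
    exact exists_congr fun i => ⟨fun h => funext fun v => (h trivial).symm,
      fun h v _ => (congrFun h v).symm⟩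
  rw [this]
  simp

lemma beta_gt (t : ℕ) : t < beta (kk t) := by
  by_contra h
  obtain ⟨n, F, hF⟩ := Nat.sInf_mem (s := {t' | ∃ (n : ℕ) (F : Fin t' → Finset (Fin n × Bool)),
    (dnfSat F).card = kk t ∨ (cnfSat F).card = kk t}) ⟨kk t, exists_formula _⟩
  have := no_formula (not_lt.1 h) F
  tauto

lemma bl_le (t : ℕ) : bl (kk t) ≤ t * t + t + 2 := by
  have h1 : {i | (kk t).testBit i = true ∧ (kk t).testBit (i + 1) = false} ⊆ (ex t : Set ℕ) := by
    intro i hi
    have := Finset.toFinset_bitIndices_sum_two_pow (ex t)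
    have h2 : i ∈ (kk t).bitIndices.toFinset := List.mem_toFinset.2 (Nat.mem_bitIndices.2 hi.1)
    exact mem_coe.2 (this ▸ h2)
  refine (Set.ncard_le_ncard h1 (Finset.finite_toSet _)).trans ?_
  rw [Set.ncard_coe_finset]
  refine (card_insert_le _ _).trans ?_
  have := card_image_le (s := range (t * t + t + 1)) (f := fun j => top t - gap t j)
  rw [card_range] at this
  omega

lemma poly_bound (P : Polynomial ℝ) : ∃ (C : ℝ) (D : ℕ), 0 ≤ C ∧
    ∀ x T : ℝ, 1 ≤ T → |x| ≤ T → |P.eval x| ≤ C * T ^ D := by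
  induction P using Polynomial.induction_on' with
  | add p q hp hq =>
    obtain ⟨C, D, hC, h⟩ := hp
    obtain ⟨C', D', hC', h'⟩ := hq
    refine ⟨C + C', D + D', by positivity, fun x T hT hx => ?_⟩
    have h1 : T ^ D ≤ T ^ (D + D') := pow_le_pow_right₀ hT (by omega)
    have h2 : T ^ D' ≤ T ^ (D + D') := pow_le_pow_right₀ hT (by omega)
    rw [Polynomial.eval_add]
    have h3 := abs_add_le (p.eval x) (q.eval x)
    nlinarith [h x T hT hx, h' x T hT hx, mul_le_mul_of_nonneg_left h1 hC,
      mul_le_mul_of_nonneg_left h2 hC']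
  | monomial n a =>
    refine ⟨|a|, n, abs_nonneg a, fun x T hT hx => ?_⟩
    rw [Polynomial.eval_monomial, abs_mul, abs_pow]
    exact mul_le_mul_of_nonneg_left (pow_le_pow_left₀ (abs_nonneg _) hx _) (abs_nonneg _)

theorem result (p : Polynomial ℝ) :
    ∃ k : ℕ, 0 < k ∧ p.eval (Real.logb 2 (bl k)) < (beta k : ℝ) := by
  obtain ⟨C, D, hC, hP⟩ := poly_bound p
  have hlim := tendsto_pow_const_div_const_pow_of_one_lt D (show (1 : ℝ) < 2 by norm_num)
  have hpos : (0 : ℝ) < 1 / ((C + 1) * 3 ^ D) := by positivity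
  obtain ⟨s, hs, hs1⟩ := ((hlim.eventually (gt_mem_nhds hpos)).and (eventually_ge_atTop 2)).exists
  refine ⟨kk (2 ^ s), lt_of_lt_of_le (by positivity) (kk_bounds _).1, ?_⟩
  have h1 : ((2 : ℝ) ^ s) < beta (kk (2 ^ s)) := by exact_mod_cast beta_gt (2 ^ s)
  have hs' : (2 : ℝ) ≤ s := by exact_mod_cast hs1
  have h2 : bl (kk (2 ^ s)) ≤ 2 ^ (3 * s) := by
    refine (bl_le _).trans ?_
    have : 2 ^ 2 ≤ 2 ^ s := Nat.pow_le_pow_right (by norm_num) hs1
    rw [mul_comm 3, pow_mul]
    generalize 2 ^ s = y at *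
    nlinarith [Nat.mul_le_mul this (Nat.mul_le_mul this (le_refl y))]
  have h3 : |Real.logb 2 (bl (kk (2 ^ s)))| ≤ 3 * s := by
    rcases Nat.eq_zero_or_pos (bl (kk (2 ^ s))) with h | h
    · rw [h]
      simp
    · rw [abs_of_nonneg (Real.logb_nonneg (by norm_num) (by exact_mod_cast h)),
        Real.logb_le_iff_le_rpow (by norm_num) (by exact_mod_cast h)]
      have : ((2 : ℝ)) ^ (3 * (s : ℝ)) = ((2 ^ (3 * s) : ℕ) : ℝ) := by
        push_cast
        rw [← Real.rpow_natCast]
        push_cast
        rfl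
      rw [this]
      exact_mod_cast h2
  have h4 := (le_abs_self _).trans (hP _ _ (by linarith) h3)
  rw [div_lt_div_iff₀ (by positivity) (by positivity)] at hs
  rw [mul_pow] at h4
  have h5 : (0 : ℝ) ≤ 3 ^ D * (s : ℝ) ^ D := by positivity
  nlinarith

end Pool.Agent.Results.MP_94c5d9_co.No
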